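import Mathlib

set_option autoImplicit false

open scoped Pointwise

namespace Pool.Agent.Results.MP_c59173_co.BoxFails

/-- The product set `T_1 ⋆ ... ⋆ T_n`, taken in this order. -/
def prodSet {G : Type} [Group G] [DecidableEq G] {n : ℕ} (T : Fin n → Finset G) : Finset G :=
  (List.ofFn T).prod

/-- `N_A`: the largest size of a product set obtained from `S_1 ⋆ ... ⋆ S_n` by keeping `S_i` for
`i ∈ A` and replacing `S_i` by `{x_i}`, `x_i ∈ S_i`, for `i ∉ A`. -/
def maxSize {G : Type} [Group G] [DecidableEq G] {n : ℕ} (S : Fin n → Finset G)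
    (A : Finset (Fin n)) : ℕ :=
  (Fintype.piFinset S).sup fun x => (prodSet fun i => if i ∈ A then S i else {x i}).card

/-- the dihedral group of order eight -/
abbrev D := DihedralGroup 4

/-- first reflection -/
def a : D := DihedralGroup.sr 0

/-- second reflection -/
def b : D := DihedralGroup.sr 1

/-- choose `1` or `g` -/
def pick (g : D) (e : Bool) : D := if e then g else 1

/-- the first kind of products -/
lemma inj0 : ∀ e d e' d' : Bool, pick a e * pick b d = pick a e' * pick b d' → e = e' ∧ d = d' := by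
  decide

/-- the second kind of products -/
lemma inj1 : ∀ e d e' d' : Bool, pick a e * (b * a) * pick b d = pick a e' * (b * a) * pick b d' →
    e = e' ∧ d = d' := by
  decide

/-- the two kinds differ -/
lemma ne01 : ∀ e d e' d' : Bool, pick a e * (b * a) * pick b d ≠ pick a e' * pick b d' := by
  decide

variable (m : ℕ)

/-- the group -/
abbrev Gm := Fin m → D

/-- the set `S_1` -/
def H : Finset (Gm m) := Finset.univ.image fun e : Fin m → Bool => fun i => pick a (e i)

/-- the set `S_4` -/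
def K : Finset (Gm m) := Finset.univ.image fun e : Fin m → Bool => fun i => pick b (e i)

/-- the set `S_2` -/
def B : Finset (Gm m) := Finset.univ.image fun i : Fin m => Pi.mulSingle i b

/-- the set `S_3` -/
def C : Finset (Gm m) := Finset.univ.image fun i : Fin m => Pi.mulSingle i a

/-- the four sets -/
def S : Fin 4 → Finset (Gm m) := ![H m, B m, C m, K m]

lemma mem_H {x : Gm m} : x ∈ H m ↔ ∃ e : Fin m → Bool, (fun i => pick a (e i)) = x := by
  simp [H]

lemma mem_K {x : Gm m} : x ∈ K m ↔ ∃ e : Fin m → Bool, (fun i => pick b (e i)) = x := by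
  simp [K]

lemma card_H : (H m).card ≤ 2 ^ m := by
  refine Finset.card_image_le.trans ?_
  simp

lemma card_K : (K m).card ≤ 2 ^ m := by
  refine Finset.card_image_le.trans ?_
  simp

lemma H_mul {j : Fin m} {h : Gm m} (hh : h ∈ H m) : h * Pi.mulSingle j a ∈ H m := by
  rw [mem_H] at hh ⊢
  obtain ⟨e, rfl⟩ := hh
  refine ⟨Function.update e j (!(e j)), ?_⟩
  funext i
  by_cases hij : i = j
  · subst hij
    have : ∀ c : Bool, pick a (!c) = pick a c * a := by decide
    simp [this]
  · simp [Function.update_of_ne hij, Pi.mulSingle_eq_of_ne hij]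

lemma K_mul {j : Fin m} {k : Gm m} (hk : k ∈ K m) : Pi.mulSingle j b * k ∈ K m := by
  rw [mem_K] at hk ⊢
  obtain ⟨e, rfl⟩ := hk
  refine ⟨Function.update e j (!(e j)), ?_⟩
  funext i
  by_cases hij : i = j
  · subst hij
    have : ∀ c : Bool, pick b (!c) = b * pick b c := by decide
    simp [this]
  · simp [Function.update_of_ne hij, Pi.mulSingle_eq_of_ne hij]

lemma comm {i j : Fin m} (hij : i ≠ j) :
    (Pi.mulSingle i b : Gm m) * Pi.mulSingle j a = Pi.mulSingle j a * Pi.mulSingle i b :=
  (Pi.mulSingle_commute (f := fun _ : Fin m => D) hij b a).eq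

/-- `|S_1 x S_3| ≤ 2 |S_1|` -/
lemma bound13 {x : Gm m} (hx : x ∈ B m) : (H m * ({x} * C m)).card ≤ 2 * 2 ^ m := by
  classical
  obtain ⟨i, _, rfl⟩ := Finset.mem_image.mp hx
  have hsub : H m * ({Pi.mulSingle i b} * C m) ⊆
      (H m).image (fun h => h * Pi.mulSingle i b) ∪
        (H m).image (fun h => h * (Pi.mulSingle i b * Pi.mulSingle i a)) := by
    intro y hy
    obtain ⟨h, hh, z, hz, rfl⟩ := Finset.mem_mul.mp hy
    obtain ⟨u, hu, c, hc, rfl⟩ := Finset.mem_mul.mp hz
    rw [Finset.mem_singleton] at hu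
    subst hu
    obtain ⟨j, _, rfl⟩ := Finset.mem_image.mp hc
    rw [Finset.mem_union]
    by_cases hij : i = j
    · subst hij
      right
      exact Finset.mem_image.mpr ⟨h, hh, rfl⟩
    · left
      refine Finset.mem_image.mpr ⟨h * Pi.mulSingle j a, H_mul m hh, ?_⟩
      rw [comm m hij, mul_assoc]
  calc _ ≤ _ := Finset.card_le_card hsub
    _ ≤ _ := Finset.card_union_le _ _
    _ ≤ (H m).card + (H m).card := add_le_add Finset.card_image_le Finset.card_image_le
    _ ≤ _ := by have := card_H m; omega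

/-- `|S_2 x S_4| ≤ 2 |S_4|` -/
lemma bound24 {x : Gm m} (hx : x ∈ C m) : (B m * ({x} * K m)).card ≤ 2 * 2 ^ m := by
  classical
  obtain ⟨j, _, rfl⟩ := Finset.mem_image.mp hx
  have hsub : B m * ({Pi.mulSingle j a} * K m) ⊆
      (K m).image (fun k => Pi.mulSingle j a * k) ∪
        (K m).image (fun k => Pi.mulSingle j b * (Pi.mulSingle j a * k)) := by
    intro y hy
    obtain ⟨c, hc, z, hz, rfl⟩ := Finset.mem_mul.mp hy
    obtain ⟨u, hu, k, hk, rfl⟩ := Finset.mem_mul.mp hz
    rw [Finset.mem_singleton] at hu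
    subst hu
    obtain ⟨i, _, rfl⟩ := Finset.mem_image.mp hc
    rw [Finset.mem_union]
    by_cases hij : i = j
    · subst hij
      right
      exact Finset.mem_image.mpr ⟨k, hk, rfl⟩
    · left
      refine Finset.mem_image.mpr ⟨Pi.mulSingle i b * k, K_mul m hk, ?_⟩
      rw [← mul_assoc, ← mul_assoc, comm m hij]
  calc _ ≤ _ := Finset.card_le_card hsub
    _ ≤ _ := Finset.card_union_le _ _
    _ ≤ (K m).card + (K m).card := add_le_add Finset.card_image_le Finset.card_image_le
    _ ≤ _ := by have := card_K m; omega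

/-- the map used for the lower bound -/
def word (t : Fin m × (Fin m → Bool) × (Fin m → Bool)) : Gm m :=
  (fun i => pick a (t.2.1 i)) * (Pi.mulSingle t.1 b * (Pi.mulSingle t.1 a *
    (fun i => pick b (t.2.2 i))))

lemma word_self (t : Fin m × (Fin m → Bool) × (Fin m → Bool)) :
    word m t t.1 = pick a (t.2.1 t.1) * (b * a) * pick b (t.2.2 t.1) := by
  simp [word, mul_assoc]

lemma word_ne (t : Fin m × (Fin m → Bool) × (Fin m → Bool)) (i : Fin m) (hi : i ≠ t.1) :
    word m t i = pick a (t.2.1 i) * pick b (t.2.2 i) := by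
  simp [word, Pi.mulSingle_eq_of_ne hi]

lemma word_injective : Function.Injective (word m) := by
  intro s t hst
  have h1 : s.1 = t.1 := by
    by_contra hne
    have h2 := congrFun hst s.1
    rw [word_self, word_ne m t s.1 hne] at h2
    exact ne01 _ _ _ _ h2
  obtain ⟨i, e, d⟩ := s
  obtain ⟨i', e', d'⟩ := t
  simp only at h1
  subst h1
  have h3 : ∀ l, e l = e' l ∧ d l = d' l := by
    intro l
    have h4 := congrFun hst l
    by_cases hl : l = i
    · subst hl
      have h5 := word_self m (l, e, d)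
      have h6 := word_self m (l, e', d')
      simp only at h5 h6
      rw [h5, h6] at h4
      exact inj1 _ _ _ _ h4
    · rw [word_ne m _ l hl, word_ne m _ l hl] at h4
      exact inj0 _ _ _ _ h4
  have h5 : e = e' := funext fun l => (h3 l).1
  have h6 : d = d' := funext fun l => (h3 l).2
  rw [h5, h6]

/-- the lower bound for the size of the whole product set -/
lemma lower : m * (2 ^ m * 2 ^ m) ≤ (H m * (B m * (C m * K m))).card := by
  classical
  have h1 : (Finset.univ.image (word m)).card = m * (2 ^ m * 2 ^ m) := by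
    rw [Finset.card_image_of_injective _ (word_injective m)]
    simp
  rw [← h1]
  apply Finset.card_le_card
  intro x hx
  obtain ⟨t, _, rfl⟩ := Finset.mem_image.mp hx
  unfold word
  refine Finset.mul_mem_mul ?_ (Finset.mul_mem_mul ?_ (Finset.mul_mem_mul ?_ ?_))
  · exact (mem_H m).mpr ⟨_, rfl⟩
  · exact Finset.mem_image.mpr ⟨t.1, Finset.mem_univ _, rfl⟩
  · exact Finset.mem_image.mpr ⟨t.1, Finset.mem_univ _, rfl⟩
  · exact (mem_K m).mpr ⟨_, rfl⟩

lemma prodSet_S : prodSet (S m) = H m * (B m * (C m * K m)) := by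
  simp [prodSet, S, List.ofFn_succ]

lemma maxSize_13 : maxSize (S m) {0, 2} ≤ 2 * 2 ^ m := by
  unfold maxSize
  refine Finset.sup_le ?_
  intro x hx
  have h1 : x 1 ∈ B m := by
    have := (Fintype.mem_piFinset.mp hx) 1
    simpa [S] using this
  have h2 : (prodSet fun i => if i ∈ ({0, 2} : Finset (Fin 4)) then S m i else {x i}) =
      H m * ({x 1} * C m) * {x 3} := by
    simp [prodSet, S, List.ofFn_succ, mul_assoc]
  rw [h2, Finset.mul_singleton]
  exact Finset.card_image_le.trans (bound13 m h1)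

lemma maxSize_24 : maxSize (S m) {1, 3} ≤ 2 * 2 ^ m := by
  unfold maxSize
  refine Finset.sup_le ?_
  intro x hx
  have h1 : x 2 ∈ C m := by
    have := (Fintype.mem_piFinset.mp hx) 2
    simpa [S] using this
  have h2 : (prodSet fun i => if i ∈ ({1, 3} : Finset (Fin 4)) then S m i else {x i}) =
      {x 0} * (B m * ({x 2} * K m)) := by
    simp [prodSet, S, List.ofFn_succ]
  rw [h2, Finset.singleton_mul]
  exact Finset.card_image_le.trans (bound24 m h1)

/-- **The box theorem fails in non-commutative groups, by an arbitrarily large factor.** For every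
real `c` there are a finite group `G` and nonempty finite sets `S_1, S_2, S_3, S_4 ⊆ G` such that for
all positive reals `l_1, ..., l_4` with product `|S_1 ⋆ S_2 ⋆ S_3 ⋆ S_4|` there is `A ⊆ [4]` with
`c * N_A < ∏_{i ∈ A} l_i`.  (`c = 1` is the negated form of the question.) -/
theorem result (c : ℝ) :
    ∃ (G : Type) (_ : Group G) (_ : DecidableEq G) (_ : Finite G) (S : Fin 4 → Finset G),
      (∀ i, (S i).Nonempty) ∧
      ∀ l : Fin 4 → ℝ, (∀ i, 0 < l i) → ∏ i, l i = ((prodSet S).card : ℝ) →
        ∃ A : Finset (Fin 4), c * (maxSize S A : ℝ) < ∏ i ∈ A, l i := by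
  classical
  obtain ⟨m, hm⟩ := exists_nat_gt (4 * (max c 1) ^ 2)
  have hc1 : (1 : ℝ) ≤ max c 1 := le_max_right _ _
  have hm0 : 0 < m := by
    have : (0 : ℝ) < m := lt_of_le_of_lt (by positivity) hm
    exact_mod_cast this
  have hne : NeZero m := ⟨hm0.ne'⟩
  refine ⟨Gm m, inferInstance, inferInstance, inferInstance, S m, ?_, ?_⟩
  · intro i
    fin_cases i
    · exact ⟨_, (mem_H m).mpr ⟨fun _ => true, rfl⟩⟩
    · exact ⟨_, Finset.mem_image_of_mem _ (Finset.mem_univ (0 : Fin m))⟩
    · exact ⟨_, Finset.mem_image_of_mem _ (Finset.mem_univ (0 : Fin m))⟩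
    · exact ⟨_, (mem_K m).mpr ⟨fun _ => true, rfl⟩⟩
  · intro l hl hprod
    by_contra hcon
    push Not at hcon
    have h13 := hcon {0, 2}
    have h24 := hcon {1, 3}
    rw [Finset.prod_pair (by decide)] at h13 h24
    have hN13 : (maxSize (S m) {0, 2} : ℝ) ≤ 2 * 2 ^ m := by exact_mod_cast maxSize_13 m
    have hN24 : (maxSize (S m) {1, 3} : ℝ) ≤ 2 * 2 ^ m := by exact_mod_cast maxSize_24 m
    have hlow : (m : ℝ) * (2 ^ m * 2 ^ m) ≤ ((prodSet (S m)).card : ℝ) := by
      rw [prodSet_S]
      exact_mod_cast lower m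
    have h4 : ∏ i, l i = (l 0 * l 2) * (l 1 * l 3) := by
      rw [Fin.prod_univ_four]; ring
    rw [← hprod, h4] at hlow
    have hcm : c ≤ max c 1 := le_max_left _ _
    have hb13 : l 0 * l 2 ≤ max c 1 * (2 * 2 ^ m) :=
      h13.trans (mul_le_mul hcm hN13 (by positivity) (by positivity))
    have hb24 : l 1 * l 3 ≤ max c 1 * (2 * 2 ^ m) :=
      h24.trans (mul_le_mul hcm hN24 (by positivity) (by positivity))
    have h5 : (l 0 * l 2) * (l 1 * l 3) ≤
        (max c 1 * (2 * 2 ^ m)) * (max c 1 * (2 * 2 ^ m)) :=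
      mul_le_mul hb13 hb24 (mul_pos (hl 1) (hl 3)).le (by positivity)
    have h6 : (m : ℝ) * (2 ^ m * 2 ^ m) ≤ (4 * (max c 1) ^ 2) * (2 ^ m * 2 ^ m) := by
      calc _ ≤ _ := hlow
        _ ≤ _ := h5
        _ = _ := by ring
    have h7 : (m : ℝ) ≤ 4 * (max c 1) ^ 2 := le_of_mul_le_mul_right h6 (by positivity)
    linarith

end Pool.Agent.Results.MP_c59173_co.BoxFails
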